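import Pool.Agent.Y782.UG.Stm
import Pool.Agent.H54R3.Spec508

/-!
# Spectral measure and resolvent of a bounded selfadjoint operator (UG-RESV)
-/

set_option autoImplicit false

open MeasureTheory Filter Topology
open scoped InnerProductSpace

namespace Pool.Agent.Y893.UG

open Pool.Agent.Y782.UG Pool.Agent.H54R3.Spec508

section
variable (z : ℂ)

/-- real part of `1 / (x - z)` -/
noncomputable def g1 (x : ℝ) : ℝ := (x - z.re) / ((x - z.re) ^ 2 + z.im ^ 2)

/-- imaginary part of `1 / (x - z)` -/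
noncomputable def g2 (x : ℝ) : ℝ := z.im / ((x - z.re) ^ 2 + z.im ^ 2)

variable {z}

lemma den_pos (hz : 0 < z.im) (x : ℝ) : 0 < (x - z.re) ^ 2 + z.im ^ 2 := by positivity

lemma g1_cont (hz : 0 < z.im) : Continuous (g1 z) := by
  unfold g1
  exact Continuous.div (by fun_prop) (by fun_prop) (fun x => (den_pos hz x).ne')

lemma g2_cont (hz : 0 < z.im) : Continuous (g2 z) := by
  unfold g2
  exact Continuous.div (by fun_prop) (by fun_prop) (fun x => (den_pos hz x).ne')

lemma g1_mul (hz : 0 < z.im) (x : ℝ) : x * g1 z x = z.re * g1 z x + (1 - z.im * g2 z x) := by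
  have := (den_pos hz x).ne'
  unfold g1 g2
  field_simp
  ring

lemma g2_mul (hz : 0 < z.im) (x : ℝ) : x * g2 z x = z.re * g2 z x + z.im * g1 z x := by
  have := (den_pos hz x).ne'
  unfold g1 g2
  field_simp
  ring

lemma g_eq (hz : 0 < z.im) (x : ℝ) :
    1 / ((x : ℂ) - z) = ((g1 z x : ℝ) : ℂ) + Complex.I * ((g2 z x : ℝ) : ℂ) := by
  have hd := (den_pos hz x).ne'
  have hne : (x : ℂ) - z ≠ 0 := by
    intro h
    have := congrArg Complex.im h
    simp at this
    linarith
  have hdc : (((x - z.re) ^ 2 + z.im ^ 2 : ℝ) : ℂ) ≠ 0 := by exact_mod_cast hd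
  have hprod : ((x : ℂ) - z) * (((x - z.re : ℝ) : ℂ) + Complex.I * ((z.im : ℝ) : ℂ)) =
      (((x - z.re) ^ 2 + z.im ^ 2 : ℝ) : ℂ) := by
    apply Complex.ext
    · simp [sq]
    · simp [sq]
      ring
  have hg : ((g1 z x : ℝ) : ℂ) + Complex.I * ((g2 z x : ℝ) : ℂ) =
      (((x - z.re : ℝ) : ℂ) + Complex.I * ((z.im : ℝ) : ℂ)) /
        (((x - z.re) ^ 2 + z.im ^ 2 : ℝ) : ℂ) := by
    unfold g1 g2
    rw [Complex.ofReal_div, Complex.ofReal_div]
    ring
  rw [hg, div_eq_div_iff hne hdc, one_mul, ← hprod]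
  ring

end

section
variable {X : Type} [NormedAddCommGroup X] [InnerProductSpace ℂ X] [CompleteSpace X]

lemma cfc_idmul {A : X →L[ℂ] X} (hA : IsSelfAdjoint A) {g : ℝ → ℝ} (hg : Continuous g) :
    cfc (fun x => x * g x) A = A * cfc g A ∧ cfc (fun x => x * g x) A = cfc g A * A := by
  constructor
  · rw [cfc_mul (fun x : ℝ => x) g A (by fun_prop) hg.continuousOn, cfc_id' ℝ A]
  · have : (fun x : ℝ => x * g x) = fun x => g x * x := by
      funext x; ring
    rw [this, cfc_mul g (fun x : ℝ => x) A hg.continuousOn (by fun_prop), cfc_id' ℝ A]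

lemma cfc_g1 {A : X →L[ℂ] X} (hA : IsSelfAdjoint A) {z : ℂ} (hz : 0 < z.im) :
    cfc (fun x => x * g1 z x) A = z.re • cfc (g1 z) A + (1 - z.im • cfc (g2 z) A) := by
  have h1 := g1_cont hz
  have h2 := g2_cont hz
  have : (fun x => x * g1 z x) = fun x => z.re * g1 z x + (1 - z.im * g2 z x) := by
    funext x; exact g1_mul hz x
  rw [this, cfc_add A (fun x => z.re * g1 z x) (fun x => 1 - z.im * g2 z x)
    (by fun_prop) (by fun_prop), cfc_const_mul z.re (g1 z) A h1.continuousOn,
    cfc_sub (fun _ : ℝ => (1 : ℝ)) (fun x => z.im * g2 z x) A (by fun_prop) (by fun_prop),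
    cfc_const_mul z.im (g2 z) A h2.continuousOn, cfc_const_one ℝ A]

lemma cfc_g2 {A : X →L[ℂ] X} (hA : IsSelfAdjoint A) {z : ℂ} (hz : 0 < z.im) :
    cfc (fun x => x * g2 z x) A = z.re • cfc (g2 z) A + z.im • cfc (g1 z) A := by
  have h1 := g1_cont hz
  have h2 := g2_cont hz
  have : (fun x => x * g2 z x) = fun x => z.re * g2 z x + z.im * g1 z x := by
    funext x; exact g2_mul hz x
  rw [this, cfc_add A (fun x => z.re * g2 z x) (fun x => z.im * g1 z x)
    (by fun_prop) (by fun_prop), cfc_const_mul z.re (g2 z) A h2.continuousOn,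
    cfc_const_mul z.im (g1 z) A h1.continuousOn]

/-- the resolvent -/
noncomputable def T (A : X →L[ℂ] X) (z : ℂ) (f : X) : X :=
  cfc (g1 z) A f + Complex.I • cfc (g2 z) A f

lemma aux (z : ℂ) (u v f : X) :
    (((z.re : ℂ) • u + (f - (z.im : ℂ) • v)) + Complex.I • ((z.re : ℂ) • v + (z.im : ℂ) • u)) -
      z • (u + Complex.I • v) = f := by
  have hI : Complex.I * Complex.I = -1 := Complex.I_mul_I
  have key : ∀ a b : ℂ, (((a • u + (f - b • v)) + Complex.I • (a • v + b • u)) -
      (a + b * Complex.I) • (u + Complex.I • v) = f) := by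
    intro a b
    have h1 : (a + b * Complex.I) • (u + Complex.I • v) =
        a • u + (b * Complex.I) • u + (a * Complex.I) • v + (b * (Complex.I * Complex.I)) • v := by
      module
    rw [h1, hI]
    module
  have := key z.re z.im
  rwa [Complex.re_add_im] at this

lemma T_right {A : X →L[ℂ] X} (hA : IsSelfAdjoint A) {z : ℂ} (hz : 0 < z.im) (f : X) :
    A (T A z f) - z • T A z f = f := by
  have e1 : A (cfc (g1 z) A f) = z.re • cfc (g1 z) A f + (f - z.im • cfc (g2 z) A f) := by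
    have h := (cfc_idmul hA (g1_cont hz)).1
    rw [cfc_g1 hA hz] at h
    exact (congrArg (fun L : X →L[ℂ] X => L f) h).symm
  have e2 : A (cfc (g2 z) A f) = z.re • cfc (g2 z) A f + z.im • cfc (g1 z) A f := by
    have h := (cfc_idmul hA (g2_cont hz)).1
    rw [cfc_g2 hA hz] at h
    exact (congrArg (fun L : X →L[ℂ] X => L f) h).symm
  unfold T
  rw [map_add, map_smul, e1, e2]
  exact aux z _ _ _

lemma T_left {A : X →L[ℂ] X} (hA : IsSelfAdjoint A) {z : ℂ} (hz : 0 < z.im) (f : X) :
    T A z (A f - z • f) = f := by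
  have e1 : cfc (g1 z) A (A f) = z.re • cfc (g1 z) A f + (f - z.im • cfc (g2 z) A f) := by
    have h := (cfc_idmul hA (g1_cont hz)).2
    rw [cfc_g1 hA hz] at h
    exact (congrArg (fun L : X →L[ℂ] X => L f) h).symm
  have e2 : cfc (g2 z) A (A f) = z.re • cfc (g2 z) A f + z.im • cfc (g1 z) A f := by
    have h := (cfc_idmul hA (g2_cont hz)).2
    rw [cfc_g2 hA hz] at h
    exact (congrArg (fun L : X →L[ℂ] X => L f) h).symm
  unfold T
  rw [map_sub, map_sub, map_smul, map_smul, e1, e2]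
  refine Eq.trans ?_ (aux z (cfc (g1 z) A f) (cfc (g2 z) A f) f)
  change (((z.re : ℂ) • cfc (g1 z) A f + (f - (z.im : ℂ) • cfc (g2 z) A f)) -
    z • cfc (g1 z) A f) + Complex.I • (((z.re : ℂ) • cfc (g2 z) A f +
      (z.im : ℂ) • cfc (g1 z) A f) - z • cfc (g2 z) A f) = _
  module

lemma inner_T {A : X →L[ℂ] X} {z : ℂ} (hz : 0 < z.im) (e : X) :
    inner ℂ e (T A z e) = G (mu A e) z := by
  obtain ⟨i1, h1⟩ := key2 A e (g1 z) (g1_cont hz)
  obtain ⟨i2, h2⟩ := key2 A e (g2 z) (g2_cont hz)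
  unfold T G
  rw [inner_add_right, inner_smul_right, ← h1, ← h2]
  have : (fun x : ℝ => 1 / ((x : ℂ) - z)) =
      fun x : ℝ => ((g1 z x : ℝ) : ℂ) + Complex.I * ((g2 z x : ℝ) : ℂ) := by
    funext x; exact g_eq hz x
  rw [this, integral_add i1.ofReal (i2.ofReal.const_mul _), integral_const_mul,
    integral_complex_ofReal, integral_complex_ofReal]

end

theorem resv : S_RESV := by
  intro X _ _ _ A hA e he
  refine ⟨mu A e, ?_, ?_, ?_, ?_⟩
  · constructor
    have h := (key A e (fun _ => (1 : ℝ)) continuous_const).2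
    rw [cfc_const_one ℝ A, integral_const, smul_eq_mul, mul_one] at h
    have h1 : (inner ℂ e ((1 : X →L[ℂ] X) e)).re = 1 := by
      rw [one_apply_eq_self, inner_self_eq_norm_sq_to_K, he]
      norm_num
    rw [h1, measureReal_def] at h
    rw [← ENNReal.ofReal_toReal (measure_ne_top (mu A e) Set.univ), h, ENNReal.ofReal_one]
  · refine measure_mono_null ?_ (mu_out A e)
    intro x hx
    by_contra hcon
    apply hx
    exact abs_le.mp (not_lt.mp hcon)
  · intro k
    rw [(key2 A e (fun x => x ^ k) (continuous_pow k)).2, cfc_pow_id (R := ℝ) A k]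
  · intro z hz
    have huniq : ∀ f : X, A f - z • f = 0 → f = 0 := by
      intro f hf
      have h := T_left hA hz f
      rw [hf] at h
      rw [← h]
      simp [T]
    refine ⟨⟨T A z e, T_right hA hz e⟩, ?_, huniq⟩
    intro f hf
    have h := T_left hA hz f
    rw [hf] at h
    rw [← h]
    exact inner_T hz e

end Pool.Agent.Y893.UG
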